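import Pool.Agent.R905.Div

/-!
# Functors to orbit categories and graded realisations
-/

set_option autoImplicit false

open CategoryTheory Limits MonoidalCategory
open Pool.Agent.Y112.SR

namespace Pool.Agent.Helper17.OK

universe v₁ v₂ u₁ u₂ w

section

variable {C : Type u₁} [Category.{v₁} C] [MonoidalCategory C] {D : Type u₂} [Category.{v₂} D]
  [MonoidalCategory D]

/-- For an object `T` of `C` with an isomorphism `τ` of `F(T)` with the unit object of `D`: the
composite `F(N ⊗ T) ≅ F(N) ⊗ F(T) ≅ F(N) ⊗ 𝟙 ≅ F(N)`. -/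
def untwist (F : C ⥤ D) [F.Monoidal] {T : C} (τ : F.obj T ≅ 𝟙_ D) (N : C) :
    F.obj (N ⊗ T) ⟶ F.obj N :=
  Functor.OplaxMonoidal.δ F N T ≫ F.obj N ◁ τ.hom ≫ (ρ_ (F.obj N)).hom

/-- The functor `F : C ⥤ D` identifies `D` (or a full subcategory of `D`) with the orbit category of
`C` for the twists by the objects `T i`, `i ∈ ℤ`: the objects `F(T i)` are isomorphic to the unit
object, and each morphism `F(M) ⟶ F(N)` is the sum of `F(f)` for some `f : M ⟶ N` and of finitely
many composites `F(M) ⟶ F(N ⊗ T i) ≅ F(N)`, `i ≠ 0`, of images of morphisms `M ⟶ N ⊗ T i` of `C`. -/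
structure Orbit [Preadditive D] (F : C ⥤ D) [F.Monoidal] where
  /-- the twisting objects -/
  T : ℤ → C
  /-- they are trivial in `D` -/
  τ : ∀ i, F.obj (T i) ≅ 𝟙_ D
  full : ∀ {M N : C} (g : F.obj M ⟶ F.obj N), ∃ (f : M ⟶ N) (S : Finset ℤ)
    (h : ∀ i, M ⟶ N ⊗ T i), 0 ∉ S ∧ g = F.map f + ∑ i ∈ S, F.map (h i) ≫ untwist F (τ i) N

/-- A family of subspaces `a n`, `n ∈ ℤ`, of a vector space. -/
abbrev Fam {K : Type w} [Field K] (V : ModuleCat.{w} K) : Type w := ℤ → Submodule K V

/-- `V` is the direct sum of the subspaces `a n`. -/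
def Internal {K : Type w} [Field K] {V : ModuleCat.{w} K} (a : Fam V) : Prop :=
  DirectSum.IsInternal a

/-- `g` maps `a n` to `b (n + s)` for all `n`. -/
def RaisesBy {K : Type w} [Field K] {V W : ModuleCat.{w} K} (g : V ⟶ W) (a : Fam V) (b : Fam W)
    (s : ℤ) : Prop :=
  ∀ n, ∀ v ∈ a n, g.hom v ∈ b (n + s)

/-- `p` is the identity on `a n` for even `n` and minus the identity for odd `n`. -/
def IsParity {K : Type w} [Field K] {V : ModuleCat.{w} K} (p : V ⟶ V) (a : Fam V) : Prop :=
  (∀ n, Even n → ∀ v ∈ a n, p.hom v = v) ∧ ∀ n, Odd n → ∀ v ∈ a n, p.hom v = -v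

/-- A grading of the realisation on the objects of `C`: the vector space `R(F(M))` is the direct sum
of subspaces of degrees `n ∈ ℤ`, the morphisms of `C` preserve the degree, the isomorphism
`R(F(M ⊗ T i)) ≅ R(F(M))` raises the degree by `2 i`, and the even (odd) part of the super vector
space `R(F(M))` is the sum of the subspaces of even (odd) degree. -/
structure Grading [Preadditive D] [SymmetricCategory D] {K : Type w} [Field K]
    (R : SuperRealisation D K) {F : C ⥤ D} [F.Monoidal] (O : Orbit F) where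
  /-- the subspaces -/
  gr : ∀ M : C, Fam (R.H.obj (F.obj M))
  internal : ∀ M, Internal (gr M)
  map : ∀ {M N : C} (f : M ⟶ N), RaisesBy (R.H.map (F.map f)) (gr M) (gr N) 0
  shift : ∀ (M : C) (i : ℤ),
    RaisesBy (R.H.map (untwist F (O.τ i) M)) (gr (M ⊗ O.T i)) (gr M) (2 * i)
  parity : ∀ M : C, IsParity (R.par (F.obj M)) (gr M)

section

variable [Preadditive D] [SymmetricCategory D] {K : Type w} [Field K]
  {R : SuperRealisation D K} {F : C ⥤ D} [F.Monoidal] {O : Orbit F} (G : Grading R O)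

lemma Grading.map_mem {M N : C} (f : M ⟶ N) (n : ℤ) (v : R.H.obj (F.obj M)) (hv : v ∈ G.gr M n) :
    (R.H.map (F.map f)).hom v ∈ G.gr N n := by
  have h := G.map f n v hv
  rwa [add_zero] at h

lemma Grading.shift_mem (M : C) (i n : ℤ) (v : R.H.obj (F.obj (M ⊗ O.T i)))
    (hv : v ∈ G.gr (M ⊗ O.T i) n) :
    (R.H.map (untwist F (O.τ i) M)).hom v ∈ G.gr M (n + 2 * i) :=
  G.shift M i n v hv

lemma Grading.par_even (M : C) (n : ℤ) (hn : Even n) (v : R.H.obj (F.obj M))
    (hv : v ∈ G.gr M n) : (R.par (F.obj M)).hom v = v :=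
  (G.parity M).1 n hn v hv

lemma Grading.par_odd (M : C) (n : ℤ) (hn : Odd n) (v : R.H.obj (F.obj M))
    (hv : v ∈ G.gr M n) : (R.par (F.obj M)).hom v = -v :=
  (G.parity M).2 n hn v hv

lemma Grading.internal' (M : C) : DirectSum.IsInternal (G.gr M) := G.internal M

end

end

end Pool.Agent.Helper17.OK
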