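import Pool.Agent.Helper17.OK.Main

/-!
# Kimura finiteness and orbit categories: the theorem
-/

set_option autoImplicit false
set_option linter.unusedSectionVars false
set_option linter.unusedSimpArgs false
set_option backward.isDefEq.respectTransparency false
set_option backward.defeqAttrib.useBackward true

open CategoryTheory Limits MonoidalCategory
open Pool.Agent.Y112.SR Pool.Agent.Y112.KD Pool.Agent.R905

namespace Pool.Agent.Helper17.OK

universe v₁ v₂ u₁ u₂ w

section grade

variable {C : Type u₁} [Category.{v₁} C] [MonoidalCategory C] {D : Type u₂} [Category.{v₂} D]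
  [Preadditive D] [MonoidalCategory D] [SymmetricCategory D] {K : Type w} [Field K]
  {R : SuperRealisation D K} {F : C ⥤ D} [F.Monoidal] {O : Orbit F}

/-- A morphism of `D` whose realisation preserves the degree has the same realisation as a morphism
of `C`. -/
lemma exists_degree_zero (G : Grading R O) {M N : C} (g : F.obj M ⟶ F.obj N)
    (hg : ∀ n, ∀ v ∈ G.gr M n, (R.H.map g).hom v ∈ G.gr N n) :
    ∃ f : M ⟶ N, R.H.map (F.map f) = R.H.map g := by
  obtain ⟨f, S, h, hS, hgf⟩ := O.full g
  refine ⟨f, ?_⟩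
  have h1 : R.H.map g = R.H.map (F.map f) +
      ∑ i ∈ S, R.H.map (F.map (h i)) ≫ R.H.map (untwist F (O.τ i) N) := by
    rw [hgf, Functor.map_add, Functor.map_sum]
    simp only [Functor.map_comp]
  have h2 : ∀ n, ∀ v ∈ G.gr M n, (R.H.map g).hom v = (R.H.map (F.map f)).hom v := by
    intro n v hv
    have e1 : (R.H.map g).hom v - (R.H.map (F.map f)).hom v =
        ∑ i ∈ S, (R.H.map (untwist F (O.τ i) N)).hom ((R.H.map (F.map (h i))).hom v) := by
      rw [h1, ModuleCat.hom_add, LinearMap.add_apply, add_sub_cancel_left, ModuleCat.hom_sum,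
        LinearMap.sum_apply]
      rfl
    have e2 : (R.H.map g).hom v - (R.H.map (F.map f)).hom v ∈ G.gr N n :=
      sub_mem (hg n v hv) (G.map_mem f n v hv)
    have e3 : (R.H.map g).hom v - (R.H.map (F.map f)).hom v ∈ ⨆ j, ⨆ (_ : j ≠ n), G.gr N j := by
      rw [e1]
      refine sum_mem fun i hi => ?_
      have e4 := G.shift_mem N i n _ (G.map_mem (h i) n v hv)
      have e5 : n + 2 * i ≠ n := by
        intro e
        have : i = 0 := by omega
        exact hS (this ▸ hi)
      exact (le_iSup₂_of_le (f := fun j (_ : j ≠ n) => G.gr N j) (n + 2 * i) e5 le_rfl) e4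
    have e4 := (G.internal' N).submodule_iSupIndep n
    exact sub_eq_zero.1 ((Submodule.disjoint_def.1 e4) _ e2 e3)
  apply ModuleCat.hom_ext
  have h3 : ⊤ ≤ LinearMap.eqLocus (R.H.map (F.map f)).hom (R.H.map g).hom := by
    rw [← (G.internal' M).submodule_iSup_eq_top]
    exact iSup_le fun n v hv => (h2 n v hv).symm
  exact LinearMap.ext fun v => h3 (Submodule.mem_top (x := v))

end grade

section main

variable {C : Type u₁} [Category.{v₁} C] [Preadditive C] [Linear ℚ C] [MonoidalCategory C]
  [MonoidalPreadditive C] [MonoidalLinear ℚ C] [SymmetricCategory C] [RightRigidCategory C]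
  [IsIdempotentComplete C] {D : Type u₂} [Category.{v₂} D] [Preadditive D] [Linear ℚ D] [MonoidalCategory D]
  [MonoidalPreadditive D] [MonoidalLinear ℚ D] [SymmetricCategory D] [RightRigidCategory D]
  [IsIdempotentComplete D] {K : Type w} [Field K] (R : SuperRealisation D K) (F : C ⥤ D)
  [F.Braided] [F.Additive] [F.Faithful]

lemma homNil_of_map (hU : UnitQ D) {M : C} (h : IsKimuraFinite (F.obj M)) :
    HomNil (comp R F) M := by
  intro f hf
  obtain ⟨n, hn⟩ := h.homNil R hU (en (F.map (f : M ⟶ M))) hf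
  refine ⟨n, ?_⟩
  have h1 : F.mapEnd M (f ^ n) = 0 := by
    rw [map_pow]
    exact hn
  apply F.map_injective
  rw [Functor.map_zero]
  exact h1

/-- A Kimura finite object of `D` which comes from `C` and whose even projector is the realisation of
a morphism of `C` is Kimura finite in `C`. -/
theorem kimura_of_map (hU : UnitQ D) {M : C} (h : IsKimuraFinite (F.obj M))
    (hC : (comp R F).CPlus M) : IsKimuraFinite M := by
  obtain ⟨E, O, i, r, i', r', h1, h2, h3, h4, h5⟩ :=
    exists_parts (comp R F) hC (homNil_of_map R F hU h)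
  have h6 : F.map i ≫ F.map r = 𝟙 _ := by
    rw [← Functor.map_comp, h1, CategoryTheory.Functor.map_id]
  have h7 : F.map i' ≫ F.map r' = 𝟙 _ := by
    rw [← Functor.map_comp, h2, CategoryTheory.Functor.map_id]
  obtain ⟨n, hn⟩ := h.summand R hU (F.map i) (F.map r) h6 (d := 1) (Or.inl rfl) (by
    push_cast
    exact h4)
  obtain ⟨m, hm⟩ := h.summand R hU (F.map i') (F.map r') h7 (d := -1) (Or.inr rfl) (by
    push_cast
    exact h5)
  rw [neg_neg] at hm
  exact (isKimuraFinite_iff M).2 ⟨E, O, i, r, i', r', h1, h2, h3,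
    ⟨n, (asym_map_iff F inferInstance _ E n).1 hn⟩, m, (asym_map_iff F inferInstance _ O m).1 hm⟩

theorem kimura_map {M : C} (h : IsKimuraFinite M) : IsKimuraFinite (F.obj M) := by
  obtain ⟨E, O, i, r, i', r', h1, h2, h3, ⟨n, hn⟩, m, hm⟩ := (isKimuraFinite_iff M).1 h
  refine (isKimuraFinite_iff (F.obj M)).2 ⟨F.obj E, F.obj O, F.map i, F.map r, F.map i', F.map r',
    ?_, ?_, ?_, ⟨n, (asym_map_iff F inferInstance _ E n).2 hn⟩,
    m, (asym_map_iff F inferInstance _ O m).2 hm⟩
  · rw [← Functor.map_comp, h1, CategoryTheory.Functor.map_id]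
  · rw [← Functor.map_comp, h2, CategoryTheory.Functor.map_id]
  · rw [← Functor.map_comp, ← Functor.map_comp, ← Functor.map_add, h3,
      CategoryTheory.Functor.map_id]

variable {R F}

theorem kimura_iff (hU : UnitQ D) (O : Orbit F) (G : Grading R O) (M : C) :
    IsKimuraFinite (F.obj M) ↔ IsKimuraFinite M := by
  refine ⟨fun h => kimura_of_map R F hU h ?_, kimura_map F⟩
  have hc := R_charZero R
  have h2 : (2 : K) ≠ 0 := two_ne_zero
  obtain ⟨g, hg⟩ := h.cplus R
  obtain ⟨f, hf⟩ := exists_degree_zero G g (fun n v hv => by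
    have e1 : (2 : K) • (R.H.map g).hom v = v + (R.par (F.obj M)).hom v :=
      LinearMap.congr_fun (congrArg ModuleCat.Hom.hom hg) v
    have e2 : (R.par (F.obj M)).hom v ∈ G.gr M n := by
      rcases Int.even_or_odd n with hn | hn
      · rw [G.par_even M n hn v hv]
        exact hv
      · rw [G.par_odd M n hn v hv]
        exact neg_mem hv
    have e3 : (R.H.map g).hom v = (2 : K)⁻¹ • (v + (R.par (F.obj M)).hom v) := by
      rw [← e1, smul_smul, inv_mul_cancel₀ h2, one_smul]
    rw [e3]
    exact Submodule.smul_mem _ _ (add_mem hv e2))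
  refine ⟨f, ?_⟩
  have e : (2 : K) • R.H.map (F.map f) = 𝟙 (R.H.obj (F.obj M)) + R.par (F.obj M) := by
    rw [hf]
    exact hg
  exact e

end main

end Pool.Agent.Helper17.OK
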