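import Pool.Agent.Helper17.OK.Defs

/-!
# Kimura finiteness and orbit categories
-/

set_option autoImplicit false
set_option linter.unusedSectionVars false
set_option linter.unusedSimpArgs false
set_option backward.isDefEq.respectTransparency false
set_option backward.defeqAttrib.useBackward true

open CategoryTheory Limits MonoidalCategory
open Pool.Agent.Y112.SR Pool.Agent.Y112.KD Pool.Agent.R905

namespace Pool.Agent.Helper17.OK

universe v₁ v₂ u₁ u₂ w

open Functor.LaxMonoidal Functor.OplaxMonoidal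

section comp

variable {C : Type u₁} [Category.{v₁} C] [Preadditive C] [MonoidalCategory C]
  [SymmetricCategory C] {D : Type u₂} [Category.{v₂} D] [Preadditive D] [MonoidalCategory D]
  [SymmetricCategory D] {K : Type w} [Field K]

/-- The composite of a realisation with a symmetric monoidal functor. -/
noncomputable def comp (R : SuperRealisation D K) (F : C ⥤ D) [F.Braided] [F.Additive] :
    SuperRealisation C K where
  H := F ⋙ R.H
  finite X := R.finite (F.obj X)
  par X := R.par (F.obj X)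
  par_sq X := R.par_sq (F.obj X)
  par_natural f := R.par_natural (F.map f)
  par_unit := by
    have h1 := R.par_natural (ε F)
    rw [R.par_unit, Category.id_comp] at h1
    have h2 := congrArg (fun z => R.H.map (η F) ≫ z) h1
    simp only [← Category.assoc, ← Functor.map_comp] at h2
    rw [Functor.Monoidal.η_ε, CategoryTheory.Functor.map_id, Category.id_comp] at h2
    exact h2
  par_tensor X Y := by
    rw [Functor.LaxMonoidal.comp_μ, Category.assoc]
    have h1 := R.par_natural (μ F X Y)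
    have h2 : R.H.map (μ F X Y) ≫ R.par (F.obj (X ⊗ Y)) =
        R.par (F.obj X ⊗ F.obj Y) ≫ R.H.map (μ F X Y) := h1
    rw [h2, ← Category.assoc, R.par_tensor, Category.assoc]
  symm X Y := by
    have h2 : μ F X Y ≫ F.map (β_ X Y).hom = (β_ (F.obj X) (F.obj Y)).hom ≫ μ F Y X :=
      Functor.LaxBraided.braided X Y
    have h3 := R.symm (F.obj X) (F.obj Y)
    have h4 : μ (F ⋙ R.H) X Y ≫ (F ⋙ R.H).map (β_ X Y).hom =
        (μ R.H (F.obj X) (F.obj Y) ≫ R.H.map (β_ (F.obj X) (F.obj Y)).hom) ≫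
          R.H.map (μ F Y X) := by
      rw [Functor.LaxMonoidal.comp_μ, Functor.comp_map, Category.assoc, ← Functor.map_comp, h2,
        Functor.map_comp, Category.assoc]
    rw [h4, ← Linear.smul_comp, h3, Functor.LaxMonoidal.comp_μ]
    simp only [Category.assoc]
    rfl

end comp

section asym

variable {C : Type u₁} [Category.{v₁} C] [Preadditive C] [Linear ℚ C] [MonoidalCategory C]
  [SymmetricCategory C] {D : Type u₂} [Category.{v₂} D] [Preadditive D] [Linear ℚ D]
  [MonoidalCategory D] [SymmetricCategory D] (F : C ⥤ D) [F.Braided] [F.Additive]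

/-- The comparison of the tensor powers. -/
noncomputable def th (X : C) : ∀ n : ℕ, tp (F.obj X) n ≅ F.obj (tp X n)
  | 0 => Functor.Monoidal.εIso F
  | n + 1 => whiskerRightIso (th X n) (F.obj X) ≪≫ Functor.Monoidal.μIso F (tp X n) X

lemma th_succ (X : C) (n : ℕ) : (th F X (n + 1)).hom =
    (th F X n).hom ▷ F.obj X ≫ μ F (tp X n) X := rfl

lemma sw_map (Q X : C) : sw (F.obj Q) (F.obj X) ≫ μ F Q X ▷ F.obj X ≫ μ F (Q ⊗ X) X =
    μ F Q X ▷ F.obj X ≫ μ F (Q ⊗ X) X ≫ F.map (sw Q X) := by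
  have ha : μ F Q X ▷ F.obj X ≫ μ F (Q ⊗ X) X ≫ F.map (α_ Q X X).hom =
      (α_ (F.obj Q) (F.obj X) (F.obj X)).hom ≫ F.obj Q ◁ μ F X X ≫ μ F Q (X ⊗ X) :=
    Functor.LaxMonoidal.associativity (F := F) Q X X
  have hb : μ F X X ≫ F.map (β_ X X).hom = (β_ (F.obj X) (F.obj X)).hom ≫ μ F X X :=
    Functor.LaxBraided.braided X X
  have hc : F.obj Q ◁ F.map (β_ X X).hom ≫ μ F Q (X ⊗ X) =
      μ F Q (X ⊗ X) ≫ F.map (Q ◁ (β_ X X).hom) := μ_natural_right F Q (β_ X X).hom
  have hd : (F.obj Q ◁ μ F X X ≫ μ F Q (X ⊗ X)) ≫ F.map (α_ Q X X).inv =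
      (α_ (F.obj Q) (F.obj X) (F.obj X)).inv ≫ μ F Q X ▷ F.obj X ≫ μ F (Q ⊗ X) X := by
    rw [← cancel_epi (α_ (F.obj Q) (F.obj X) (F.obj X)).hom, Iso.hom_inv_id_assoc,
      ← Category.assoc, ← ha]
    simp only [Category.assoc, ← Functor.map_comp, Iso.hom_inv_id, CategoryTheory.Functor.map_id,
      Category.comp_id]
  calc sw (F.obj Q) (F.obj X) ≫ μ F Q X ▷ F.obj X ≫ μ F (Q ⊗ X) X
      = (α_ _ _ _).hom ≫ F.obj Q ◁ (β_ (F.obj X) (F.obj X)).hom ≫
          ((α_ (F.obj Q) (F.obj X) (F.obj X)).inv ≫ μ F Q X ▷ F.obj X ≫ μ F (Q ⊗ X) X) := by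
        simp only [sw, Category.assoc]
    _ = (α_ _ _ _).hom ≫ F.obj Q ◁ (β_ (F.obj X) (F.obj X)).hom ≫ F.obj Q ◁ μ F X X ≫
          μ F Q (X ⊗ X) ≫ F.map (α_ Q X X).inv := by
        rw [← hd, Category.assoc]
    _ = (α_ _ _ _).hom ≫ F.obj Q ◁ ((β_ (F.obj X) (F.obj X)).hom ≫ μ F X X) ≫
          μ F Q (X ⊗ X) ≫ F.map (α_ Q X X).inv := by
        rw [MonoidalCategory.whiskerLeft_comp, Category.assoc]
    _ = (α_ _ _ _).hom ≫ F.obj Q ◁ μ F X X ≫ (F.obj Q ◁ F.map (β_ X X).hom ≫
          μ F Q (X ⊗ X)) ≫ F.map (α_ Q X X).inv := by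
        rw [← hb, MonoidalCategory.whiskerLeft_comp, Category.assoc, Category.assoc]
    _ = ((α_ _ _ _).hom ≫ F.obj Q ◁ μ F X X ≫ μ F Q (X ⊗ X)) ≫ F.map (Q ◁ (β_ X X).hom) ≫
          F.map (α_ Q X X).inv := by
        rw [hc]
        simp only [Category.assoc]
    _ = _ := by
        rw [← ha]
        simp only [sw, Category.assoc, Functor.map_comp]

lemma sw_th (X : C) (n : ℕ) : sw (tp (F.obj X) n) (F.obj X) ≫ (th F X (n + 2)).hom =
    (th F X (n + 2)).hom ≫ F.map (sw (tp X n) X) := by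
  rw [th_succ, th_succ, comp_whiskerRight]
  have h1 := sw_nat_left (X := F.obj X) (th F X n).hom
  calc sw (tp (F.obj X) n) (F.obj X) ≫ (((th F X n).hom ▷ F.obj X) ▷ F.obj X ≫
        μ F (tp X n) X ▷ F.obj X) ≫ μ F (tp X n ⊗ X) X
      = (sw (tp (F.obj X) n) (F.obj X) ≫ ((th F X n).hom ▷ F.obj X) ▷ F.obj X) ≫
        μ F (tp X n) X ▷ F.obj X ≫ μ F (tp X n ⊗ X) X := by simp only [Category.assoc]
    _ = _ := by
      rw [← h1, Category.assoc, sw_map]
      simp only [Category.assoc]

lemma asym_th (η : ℚ) (X : C) : ∀ n : ℕ, asym η (F.obj X) n ≫ (th F X n).hom =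
    (th F X n).hom ≫ F.map (asym η X n)
  | 0 => by
    rw [asym_zero, asym_zero, CategoryTheory.Functor.map_id, Category.comp_id, Category.id_comp]
  | 1 => by
    rw [asym_one, asym_one, CategoryTheory.Functor.map_id, Category.comp_id, Category.id_comp]
  | n + 2 => by
    have ih := asym_th η X (n + 1)
    have h1 : (asym η (F.obj X) (n + 1) ▷ F.obj X) ≫ (th F X (n + 2)).hom =
        (th F X (n + 2)).hom ≫ F.map (asym η X (n + 1) ▷ X) := by
      rw [th_succ, ← Category.assoc, ← comp_whiskerRight, ih, comp_whiskerRight, Category.assoc,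
        μ_natural_left, Category.assoc]
    have h2 := sw_th F X n
    rw [asym_succ, asym_succ, Functor.map_smul, Functor.map_add, Functor.map_smul,
      Functor.map_comp, Functor.map_comp, Linear.smul_comp, Preadditive.add_comp,
      Linear.smul_comp, Linear.comp_smul, Preadditive.comp_add, Linear.comp_smul, h1]
    congr 3
    rw [Category.assoc, Category.assoc, h1, ← Category.assoc (sw _ _), h2, Category.assoc,
      ← Category.assoc (asym η (F.obj X) (n + 1) ▷ F.obj X), h1, Category.assoc]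

lemma asym_map_iff (hF : F.Faithful) (η : ℚ) (X : C) (n : ℕ) :
    asym η (F.obj X) n = 0 ↔ asym η X n = 0 := by
  have h1 := asym_th F η X n
  constructor
  · intro h
    rw [h, zero_comp] at h1
    apply F.map_injective
    rw [Functor.map_zero, ← cancel_epi (th F X n).hom, ← h1, comp_zero]
  · intro h
    rw [h, Functor.map_zero, comp_zero] at h1
    rw [← cancel_mono (th F X n).hom, h1, zero_comp]

end asym

end Pool.Agent.Helper17.OK
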